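import Pool.Agent.R256.DE.Fin

/-!
# Nearest neighbour stirring in dimension `d ≥ 3`: typical cycles are equidistributed

For nearest neighbour random stirring on the torus `(ℤ / L)^d`, `d ≥ 3`, at the times
`t ≥ A L^(4/d)`, `A` large, typical points lie in cycles which contain nearly the right proportion
of every given set `S`: the mean square of the difference of the proportion of the points of `S` in
the cycle of a uniformly chosen point and of the density of `S` is small, uniformly in `S`, `t` and
`L`.  (For `d ≥ 3` the time `L^(4/d)` is much smaller than the diffusive time `L²`.)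
-/

set_option autoImplicit false

namespace Pool.Agent.Results.MP_6c3d62_pr.Equidistribution

open Finset Equiv
open Pool.Agent.Y998.ST

/-- Nearest neighbour random stirring on the torus `(ℤ / L)^d`, `d ≥ 3`, started at the identity.
For every `η > 0` there is `A` such that for all `L ≥ A`, all times `t ≥ A L^(4/d)` and all sets `S`
of points of the torus, the average over all points `v` of the mean square of
`|c(v) ∩ S| / |c(v)| - |S| / L^d`, where `c(v)` is the cycle of `v`, is at most `η`. -/
theorem result (d : ℕ) (hd : 3 ≤ d) (η : ℝ) (hη : 0 < η) :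
    ∃ A : ℝ, 0 < A ∧ ∀ (L : ℕ) [NeZero L], A ≤ L → ∀ t : ℝ,
      A * (L : ℝ) ^ (4 / (d : ℝ)) ≤ t → ∀ S : Finset (Fin d → ZMod L),
      (1 / (L : ℝ) ^ d) * ∑ v, stirExp (nnRate d L) t (fun g =>
        ((Nat.card {w : Fin d → ZMod L // g.SameCycle v w ∧ w ∈ S} : ℝ) / cycleLen g v -
          S.card / (L : ℝ) ^ d) ^ 2) ≤ η :=
  Pool.Agent.R256.DE.equi d hd η hη

end Pool.Agent.Results.MP_6c3d62_pr.Equidistribution
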