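import Pool.Agent.R134.PB.Typ
import Pool.Agent.R134.PB.TopS

/-!
# Nearest neighbour stirring: the length of typical cycles, beyond the range of the walk

`stirExp J t F` (Pool.Agent.Y998.ST.Defs) is the expectation of `F` under random stirring with rates
`J` at time `t`, started at the identity, `nnRate d L` are the rates `1` for the nearest neighbours
of the torus `(ℤ / L)^d`, `cycleLen g v` is the length of the cycle of `g` through `v`, and
`pf g i` (Pool.Agent.R134.PB.Stm4) is the `i`-th largest cycle length of `g` (`i = 0` for the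
largest) divided by the number of points.
-/

set_option autoImplicit false

namespace Pool.Agent.Results.MP_6c3d62_pr.LongCyclesEarly

open Finset Equiv
open Pool.Agent.Y998.ST
open Pool.Agent.R134.PB

open Classical in
/-- Typical points are in macroscopic cycles at times at least `L ^ (4 / d + ε)`. -/
theorem giant (d : ℕ) (hd : 3 ≤ d) (ε : ℝ) (hε : 0 < ε) (η : ℝ) (hη : 0 < η) :
    ∃ (c : ℝ) (L₀ : ℕ), 0 < c ∧ ∀ (L : ℕ) [NeZero L], L₀ ≤ L → ∀ t : ℝ,
      (L : ℝ) ^ (4 / (d : ℝ) + ε) ≤ t → ∀ v : Fin d → ZMod L,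
      stirExp (nnRate d L) t (fun g => if (cycleLen g v : ℝ) ≤ c * (L : ℝ) ^ d
        then (1 : ℝ) else 0) ≤ η := by
  have hd3 : (3 : ℝ) ≤ d := by exact_mod_cast hd
  have hd0 : (0 : ℝ) < d := by linarith
  obtain ⟨e, he⟩ : ∃ e : ℝ, e = ε * d ^ 2 / (4 * (4 / d + ε)) := ⟨_, rfl⟩
  have he0 : 0 < e := by rw [he]; positivity
  obtain ⟨c, T, hc, h⟩ := Typ.main d hd e he0 η hη
  obtain ⟨n1, hn1⟩ := exists_nat_gt ((max 1 T) ^ ((d : ℝ) / 4))
  refine ⟨c, max 3 n1, hc, fun L _ hL t ht v => ?_⟩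
  have hL3 : 3 ≤ L := (le_max_left _ _).trans hL
  have hLn1 : n1 ≤ L := (le_max_right _ _).trans hL
  have hL1 : (1 : ℝ) ≤ L := by exact_mod_cast (show 1 ≤ L by omega)
  have hL0 : (0 : ℝ) < L := by linarith
  have hTt : T ≤ t := by
    have h1 : (max 1 T) ^ ((d : ℝ) / 4) ≤ L := hn1.le.trans (by exact_mod_cast hLn1)
    have h2 : max 1 T ≤ (L : ℝ) ^ (4 / (d : ℝ)) := by
      calc max 1 T = ((max 1 T) ^ ((d : ℝ) / 4)) ^ (4 / (d : ℝ)) := by
            rw [← Real.rpow_mul (by positivity)]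
            have : (d : ℝ) / 4 * (4 / d) = 1 := by field_simp
            rw [this, Real.rpow_one]
        _ ≤ _ := Real.rpow_le_rpow (by positivity) h1 (by positivity)
    calc T ≤ max 1 T := le_max_right _ _
      _ ≤ (L : ℝ) ^ (4 / (d : ℝ)) := h2
      _ ≤ (L : ℝ) ^ (4 / (d : ℝ) + ε) := Real.rpow_le_rpow_of_exponent_le hL1 (by linarith)
      _ ≤ t := ht
  have hexp : 0 < (d : ℝ) ^ 2 / 4 - e := by
    have h1 : e < d ^ 2 / 4 := by
      rw [he, div_lt_div_iff₀ (by positivity) (by norm_num)]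
      have h2 : 0 < 4 / (d : ℝ) := by positivity
      have h3 : 0 < (d : ℝ) ^ 2 * (4 / d) := by positivity
      nlinarith
    linarith
  have hid : (4 / (d : ℝ) + ε) * ((d : ℝ) ^ 2 / 4 - e) = d := by
    rw [he]
    field_simp
    ring
  have hLd : (L : ℝ) ^ d ≤ t ^ ((d : ℝ) ^ 2 / 4 - e) := by
    have h1 : ((L : ℝ) ^ (4 / (d : ℝ) + ε)) ^ ((d : ℝ) ^ 2 / 4 - e) ≤
        t ^ ((d : ℝ) ^ 2 / 4 - e) :=
      Real.rpow_le_rpow (by positivity) ht hexp.le
    rwa [← Real.rpow_mul hL0.le, hid, Real.rpow_natCast] at h1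
  have h2 := h t hTt L hL3 v
  rwa [min_eq_right hLd] at h2

open Classical in
/-- The mass of the longest cycles at times at least `L ^ (4 / d + ε)`. -/
theorem mass (d : ℕ) (hd : 3 ≤ d) (ε : ℝ) (hε : 0 < ε) (η : ℝ) (hη : 0 < η) :
    ∃ k L₀ : ℕ, ∀ (L : ℕ) [NeZero L], L₀ ≤ L → ∀ t : ℝ, (L : ℝ) ^ (4 / (d : ℝ) + ε) ≤ t →
      1 - η ≤ ∑ i ∈ Finset.range k, stirExp (nnRate d L) t (fun g => pf g i) := by
  obtain ⟨c, L₀, hc, h⟩ := giant d hd ε hε η hη
  obtain ⟨k, hk⟩ := exists_nat_gt (1 / c)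
  refine ⟨k, max 3 L₀, fun L _ hL t ht => ?_⟩
  have hL3 : 3 ≤ L := (le_max_left _ _).trans hL
  have hL1 : (1 : ℝ) ≤ L := by exact_mod_cast (show 1 ≤ L by omega)
  have hL0 : (0 : ℝ) < L := by linarith
  have ht0 : 0 < t := lt_of_lt_of_le (Real.rpow_pos_of_pos hL0 _) ht
  have hkc : 1 ≤ k * c := by
    rw [div_lt_iff₀ hc] at hk
    exact hk.le
  have hJ0 : ∀ x y, 0 ≤ nnRate d L x y := fun x y => by
    unfold nnRate
    split_ifs <;> norm_num
  have hN : (Fintype.card (Fin d → ZMod L) : ℝ) = (L : ℝ) ^ d := by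
    rw [Fintype.card_fun, ZMod.card, Fintype.card_fin]
    push_cast
    rfl
  have hN0 : (0 : ℝ) < (L : ℝ) ^ d := by positivity
  have h1 : ∀ g : Perm (Fin d → ZMod L), 1 - (∑ v : Fin d → ZMod L,
      (if (cycleLen g v : ℝ) ≤ c * (L : ℝ) ^ d then (1 : ℝ) else 0)) * (1 / (L : ℝ) ^ d) ≤
      ∑ i ∈ Finset.range k, pf g i := by
    intro g
    refine le_trans (le_of_eq ?_) (TopS.main (Fin d → ZMod L) g k c hc hkc)
    rw [hN]
    have h2 : (Nat.card {v : Fin d → ZMod L // c * (L : ℝ) ^ d < cycleLen g v} : ℝ) =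
        ∑ v : Fin d → ZMod L, (if c * (L : ℝ) ^ d < cycleLen g v then (1 : ℝ) else 0) := by
      rw [Nat.card_eq_fintype_card, Fintype.card_subtype, Finset.sum_boole]
    have h3 : (∑ v : Fin d → ZMod L, (if c * (L : ℝ) ^ d < cycleLen g v then (1 : ℝ) else 0)) +
        ∑ v : Fin d → ZMod L, (if (cycleLen g v : ℝ) ≤ c * (L : ℝ) ^ d then (1 : ℝ) else 0) =
        (L : ℝ) ^ d := by
      rw [← Finset.sum_add_distrib, Finset.sum_congr rfl (g := fun _ => (1 : ℝ))]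
      · rw [Finset.sum_const, Finset.card_univ, nsmul_eq_mul, mul_one, hN]
      · intro v _
        by_cases h4 : (cycleLen g v : ℝ) ≤ c * (L : ℝ) ^ d
        · rw [if_pos h4, if_neg (not_lt.2 h4), zero_add]
        · rw [if_neg h4, if_pos (not_le.1 h4), add_zero]
    rw [h2, eq_div_iff hN0.ne', sub_mul, mul_assoc, one_div, inv_mul_cancel₀ hN0.ne', mul_one,
      one_mul]
    linarith
  have h5 : stirExp (nnRate d L) t (fun g => 1 - (∑ v : Fin d → ZMod L,
      (if (cycleLen g v : ℝ) ≤ c * (L : ℝ) ^ d then (1 : ℝ) else 0)) * (1 / (L : ℝ) ^ d)) ≤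
      stirExp (nnRate d L) t (fun g => ∑ i ∈ Finset.range k, pf g i) :=
    exp_mono hJ0 ht0.le h1
  rw [← exp_sum] at h5
  refine le_trans ?_ h5
  have h9 := Pds.exp_sub' (nnRate d L) t (fun _ => (1 : ℝ)) (fun g => (∑ v : Fin d → ZMod L,
      (if (cycleLen g v : ℝ) ≤ c * (L : ℝ) ^ d then (1 : ℝ) else 0)) * (1 / (L : ℝ) ^ d))
  rw [exp_const] at h9
  refine le_trans ?_ (le_of_eq h9)
  have h6 : stirExp (nnRate d L) t (fun g => (∑ v : Fin d → ZMod L,
      (if (cycleLen g v : ℝ) ≤ c * (L : ℝ) ^ d then (1 : ℝ) else 0)) * (1 / (L : ℝ) ^ d)) =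
      (∑ v : Fin d → ZMod L, stirExp (nnRate d L) t (fun g =>
        if (cycleLen g v : ℝ) ≤ c * (L : ℝ) ^ d then (1 : ℝ) else 0)) * (1 / (L : ℝ) ^ d) := by
    rw [exp_sum]
    unfold stirExp
    rw [Finset.sum_mul]
    exact Finset.sum_congr rfl fun g _ => by ring
  have h7 : ∑ v : Fin d → ZMod L, stirExp (nnRate d L) t (fun g =>
        if (cycleLen g v : ℝ) ≤ c * (L : ℝ) ^ d then (1 : ℝ) else 0) ≤ (L : ℝ) ^ d * η := by
    calc _ ≤ ∑ _v : Fin d → ZMod L, η := Finset.sum_le_sum fun v _ =>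
          h L ((le_max_right _ _).trans hL) t ht v
      _ = (L : ℝ) ^ d * η := by
          rw [Finset.sum_const, Finset.card_univ, nsmul_eq_mul, hN]
  have h8 : (∑ v : Fin d → ZMod L, stirExp (nnRate d L) t (fun g =>
        if (cycleLen g v : ℝ) ≤ c * (L : ℝ) ^ d then (1 : ℝ) else 0)) * (1 / (L : ℝ) ^ d) ≤ η := by
    rw [mul_one_div, div_le_iff₀ hN0]
    linarith
  rw [h6]
  linarith

open Classical in
/-- Nearest neighbour random stirring on the torus `(ℤ / L)^d`, `d ≥ 3`, started at the identity;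
`ε > 0` arbitrary.

(1) For every `η > 0` there are `c > 0` and `T` such that for all `t ≥ T`, all `L ≥ 3` and all
points `v`: the cycle of `v` at time `t` has at most `c min(t ^ (d² / 4 - ε), L ^ d)` points with
probability at most `η`.

(2) For every `η > 0` there are `c > 0` and `L₀` such that for all `L ≥ L₀`, all
`t ≥ L ^ (4 / d + ε)` and all points `v`: the cycle of `v` at time `t` has at most `c L ^ d` points
with probability at most `η`.

(3) For every `η > 0` there are `k` and `L₀` such that for all `L ≥ L₀` and all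
`t ≥ L ^ (4 / d + ε)`: the expected fraction of the points in the `k` longest cycles is at least
`1 - η`. -/
theorem result (d : ℕ) (hd : 3 ≤ d) (ε : ℝ) (hε : 0 < ε) (η : ℝ) (hη : 0 < η) :
    (∃ (c T : ℝ), 0 < c ∧ ∀ t : ℝ, T ≤ t → ∀ (L : ℕ) [NeZero L], 3 ≤ L → ∀ v : Fin d → ZMod L,
      stirExp (nnRate d L) t (fun g => if (cycleLen g v : ℝ) ≤
        c * min (t ^ ((d : ℝ) ^ 2 / 4 - ε)) ((L : ℝ) ^ d) then (1 : ℝ) else 0) ≤ η) ∧
    (∃ (c : ℝ) (L₀ : ℕ), 0 < c ∧ ∀ (L : ℕ) [NeZero L], L₀ ≤ L → ∀ t : ℝ,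
      (L : ℝ) ^ (4 / (d : ℝ) + ε) ≤ t → ∀ v : Fin d → ZMod L,
      stirExp (nnRate d L) t (fun g => if (cycleLen g v : ℝ) ≤ c * (L : ℝ) ^ d
        then (1 : ℝ) else 0) ≤ η) ∧
    ∃ k L₀ : ℕ, ∀ (L : ℕ) [NeZero L], L₀ ≤ L → ∀ t : ℝ, (L : ℝ) ^ (4 / (d : ℝ) + ε) ≤ t →
      1 - η ≤ ∑ i ∈ Finset.range k, stirExp (nnRate d L) t (fun g => pf g i) :=
  ⟨Typ.main d hd ε hε η hη, giant d hd ε hε η hη, mass d hd ε hε η hη⟩

end Pool.Agent.Results.MP_6c3d62_pr.LongCyclesEarly
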