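import Pool.Agent.R517.PDL.N1

/-!
# Nearest neighbour stirring: any given points are in one cycle with probability `1 / k + o(1)`,
# locally beyond the diffusive scale and globally below the diffusive time

`stirExp J t F` (Pool.Agent.Y998.ST.Defs) is the expectation of `F` under random stirring with rates
`J` at time `t`, started at the identity, and `nnRate d L` are the rates `1` for the nearest
neighbours of the torus `(ℤ / L)^d`.
-/

set_option autoImplicit false

namespace Pool.Agent.Results.MP_6c3d62_pr.NearbyPointsInOneCycle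

open Finset Equiv
open Pool.Agent.Y998.ST (stirExp nnRate)

/-- The `ℓ¹` distance on the torus. -/
def torusDist {d L : ℕ} (x y : Fin d → ZMod L) : ℕ := ∑ i, (x i - y i).valMinAbs.natAbs

theorem dist_le {d L : ℕ} [NeZero L] (x y : Fin d → ZMod L) :
    (torusDist x y : ℝ) ≤ d * L := by
  have h1 : torusDist x y ≤ ∑ _i : Fin d, L := by
    unfold torusDist
    refine Finset.sum_le_sum fun i _ => ?_
    exact (ZMod.natAbs_valMinAbs_le _).trans (Nat.div_le_self _ _)
  rw [Finset.sum_const, Finset.card_univ, Fintype.card_fin, smul_eq_mul] at h1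
  exact_mod_cast h1

open Classical in
/-- Nearest neighbour random stirring (the interchange process) on the torus `(ℤ / L)^d`, `d ≥ 1`
arbitrary, started at the identity, `k ≥ 1` and `ε > 0`.
(1) There are `T` and `κ > 0` such that for all `L ≥ 3`, all times `t ≥ T` and any `k` different
points at mutual distance at most `κ t ^ ((d + 1) / (d + 2))`, the probability that these points are
in one cycle is within `ε` of `1 / k`.
(2) There is `A` such that for all `L ≥ A`, all times `t ≥ A L ^ ((d + 2) / (d + 1))` and any `k`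
different points of the torus the same holds. -/
theorem result (d : ℕ) (hd : 1 ≤ d) (k : ℕ) (hk : 1 ≤ k) (ε : ℝ) (hε : 0 < ε) :
    (∃ T : ℝ, 0 < T ∧ ∃ κ : ℝ, 0 < κ ∧ ∀ (L : ℕ) [NeZero L], 3 ≤ L → ∀ t : ℝ, T ≤ t →
      ∀ b : Fin k → Fin d → ZMod L, Function.Injective b →
      (∀ i j, (torusDist (b i) (b j) : ℝ) ≤ κ * t ^ (((d : ℝ) + 1) / (d + 2))) →
      |stirExp (nnRate d L) t (fun g => if ∀ i j, g.SameCycle (b i) (b j) then 1 else 0) - 1 / k| ≤
        ε) ∧
    ∃ A : ℝ, 0 < A ∧ ∀ (L : ℕ) [NeZero L], A ≤ L → ∀ t : ℝ,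
      A * (L : ℝ) ^ (((d : ℝ) + 2) / (d + 1)) ≤ t →
      ∀ b : Fin k → Fin d → ZMod L, Function.Injective b →
      |stirExp (nnRate d L) t (fun g => if ∀ i j, g.SameCycle (b i) (b j) then 1 else 0) - 1 / k| ≤
        ε := by
  have hd1 : (1 : ℝ) ≤ d := by exact_mod_cast hd
  obtain ⟨T, hT, κ, hκ, h⟩ := Pool.Agent.R517.PDL.kpt2 d hd k hk ε hε
  have h' : ∀ (L : ℕ) [NeZero L], 3 ≤ L → ∀ t : ℝ, T ≤ t →
      ∀ b : Fin k → Fin d → ZMod L, Function.Injective b →
      (∀ i j, (torusDist (b i) (b j) : ℝ) ≤ κ * t ^ (((d : ℝ) + 1) / (d + 2))) →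
      |stirExp (nnRate d L) t (fun g => if ∀ i j, g.SameCycle (b i) (b j) then 1 else 0) - 1 / k| ≤
        ε := by
    intro L _ hL t ht b hb hdis
    have h1 := h L hL t ht b hb (fun i j => hdis i j)
    convert h1
  refine ⟨⟨T, hT, κ, hκ, fun L _ hL t ht b hb hdis => h' L hL t ht b hb hdis⟩, ?_⟩
  have hsq : 0 ≤ (d / κ) ^ 2 := sq_nonneg _
  refine ⟨3 + T + (d / κ) ^ 2, by positivity, ?_⟩
  intro L _ hAL t ht b hb
  obtain ⟨A, hA⟩ : ∃ A : ℝ, A = 3 + T + (d / κ) ^ 2 := ⟨_, rfl⟩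
  rw [← hA] at hAL ht
  have hA1 : 1 ≤ A := by rw [hA]; linarith
  have hL3r : (3 : ℝ) ≤ L := by linarith
  have hL : 3 ≤ L := by exact_mod_cast hL3r
  have hL0 : (0 : ℝ) < L := by linarith
  have hLα : (1 : ℝ) ≤ (L : ℝ) ^ (((d : ℝ) + 2) / (d + 1)) :=
    Real.one_le_rpow (by linarith) (by positivity)
  have htA : A ≤ t := le_trans (le_mul_of_one_le_right (by linarith) hLα) ht
  refine h' L hL t (by linarith) b hb fun i j => ?_
  have h1 := dist_le (b i) (b j)
  refine h1.trans ?_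
  have h3 : (A * (L : ℝ) ^ (((d : ℝ) + 2) / (d + 1))) ^ (((d : ℝ) + 1) / (d + 2)) ≤
      t ^ (((d : ℝ) + 1) / (d + 2)) := Real.rpow_le_rpow (by positivity) ht (by positivity)
  have h4 : (A * (L : ℝ) ^ (((d : ℝ) + 2) / (d + 1))) ^ (((d : ℝ) + 1) / (d + 2)) =
      A ^ (((d : ℝ) + 1) / (d + 2)) * L := by
    rw [Real.mul_rpow (by linarith) (by positivity), ← Real.rpow_mul hL0.le]
    have : ((d : ℝ) + 2) / (d + 1) * (((d : ℝ) + 1) / (d + 2)) = 1 := by
      field_simp
    rw [this, Real.rpow_one]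
  have h5 : Real.sqrt A ≤ A ^ (((d : ℝ) + 1) / (d + 2)) := by
    rw [Real.sqrt_eq_rpow]
    refine Real.rpow_le_rpow_of_exponent_le hA1 ?_
    rw [div_le_div_iff₀ (by norm_num) (by positivity)]
    linarith
  have h6 : d / κ ≤ Real.sqrt A := Real.le_sqrt_of_sq_le (by rw [hA]; linarith)
  rw [div_le_iff₀ hκ] at h6
  rw [h4] at h3
  calc (d : ℝ) * L ≤ (Real.sqrt A * κ) * L := mul_le_mul_of_nonneg_right h6 hL0.le
    _ = κ * (Real.sqrt A * L) := by ring
    _ ≤ κ * (A ^ (((d : ℝ) + 1) / (d + 2)) * L) := by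
        refine mul_le_mul_of_nonneg_left ?_ hκ.le
        exact mul_le_mul_of_nonneg_right h5 hL0.le
    _ ≤ κ * t ^ (((d : ℝ) + 1) / (d + 2)) := mul_le_mul_of_nonneg_left h3 hκ.le

end Pool.Agent.Results.MP_6c3d62_pr.NearbyPointsInOneCycle
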