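import Pool.Agent.R517.PDL.L7

/-!
# Nearest neighbour stirring in low dimension: the length of typical cycles

`stirExp J t F` (Pool.Agent.Y998.ST.Defs) is the expectation of `F` under random stirring with rates
`J` at time `t`, started at the identity, `nnRate d L` are the rates `1` for the nearest neighbours
of the torus `(ℤ / L)^d`, and `cycleLen g v` is the length of the cycle of `g` through `v`.
-/

set_option autoImplicit false

namespace Pool.Agent.Results.MP_6c3d62_pr.TypicalCyclesLowDim

open Finset Equiv
open Pool.Agent.Y998.ST (stirExp nnRate cycleLen)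

open Classical in
/-- Nearest neighbour random stirring (the interchange process) on the torus `(ℤ / L)^d`, `d ≥ 1`
arbitrary, started at the identity.  For every `ε > 0` there is `c > 0` such that for all `L ≥ 3`,
all times `t > 0` and every point `v`, the cycle of `v` has at most
`c min(t ^ ((d + 1) / (d + 2)), L) ^ d` points with probability at most `ε`.  So the cycles of
typical points have at least of order `min(t ^ (d (d + 1) / (d + 2)), L ^ d)` points: the exponent
of `t` is `2 / 3` for `d = 1`, `3 / 2` for `d = 2` and `12 / 5` for `d = 3`. -/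
theorem result (d : ℕ) (hd : 1 ≤ d) (ε : ℝ) (hε : 0 < ε) :
    ∃ c : ℝ, 0 < c ∧ ∀ (L : ℕ) [NeZero L], 3 ≤ L → ∀ t : ℝ, 0 < t → ∀ v : Fin d → ZMod L,
      stirExp (nnRate d L) t (fun g =>
        if (cycleLen g v : ℝ) ≤ c * min (t ^ (((d : ℝ) + 1) / (d + 2))) (L : ℝ) ^ d
        then 1 else 0) ≤ ε :=
  Pool.Agent.R517.PDL.typ d hd ε hε

end Pool.Agent.Results.MP_6c3d62_pr.TypicalCyclesLowDim
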